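import Pool.Agent.J4.H71.IR.C
import Pool.Agent.J4.H71.BQ.A

/-!
# The vanishing of multilinear functionals at products of cycles in the images of operators
-/

set_option autoImplicit false

open FF IntermediateField Equiv Pool.Agent.J4.H17.ZC Pool.Agent.J4.H18.CV Pool.Agent.J4.H71.IR

namespace Pool.Agent.J4.H71.BQ

variable {k : Type} [Field k] [CharZero k] {X : Var k}

/-- The symmetrized products of `d + 1` zero-cycles `e P` are killed. -/
def VanX (X : Var k) (e : X.Pt → (X.Pt →₀ k)) (d : ℕ) : Prop :=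
  ∀ (T : Type) [Fintype T] [DecidableEq T], Fintype.card T = d + 1 →
    ∀ (Λ : (T → X.Pt) → k), Kill (X.pow T) Λ → ∀ s : T → X.Pt,
      ∑ σ : Perm T, ML Λ (fun i => e (s (σ i))) = 0

/-- Fixed coordinates: the relation in a power where the coordinates outside of `T` are arbitrary
cycles. -/
theorem van_multiX (hX : X.Const) {e : X.Pt → (X.Pt →₀ k)} {g : ℕ}
    (hg : VanX X e g) {ι : Type} [Fintype ι] [DecidableEq ι] (T : Finset ι)
    (hT : T.card = g + 1) (s : ι → X.Pt)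
    (Λ : (ι → X.Pt) → k) (hΛ : Kill (X.pow ι) Λ) (Z : ι → X.Pt →₀ k) :
    ∑ τ ∈ PT T, ML Λ (fun i => if i ∈ T then e (s (τ i)) else Z i) = 0 := by
  classical
  let e' : ι → X.Pt → (X.Pt →₀ k) := fun i x =>
    if i ∈ T then Finsupp.single x 1 else Z i
  have he' : ∀ i, RegE X X (e' i) := by
    intro i
    by_cases h : i ∈ T
    · have h1 : e' i = fun x => Finsupp.single x 1 := by
        funext x
        simp only [e', h, if_true]
      rw [h1]
      exact RegE.single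
    · have h1 : e' i = fun _ => Z i := by
        funext x
        simp only [e', h, if_false]
      rw [h1]
      exact RegE.const hX (Z i)
  let Λ1 : (ι → X.Pt) → k := fun x => ML Λ fun i => e' i (x i)
  have hΛ1 : Kill (X.pow ι) Λ1 := RegE.kill he' hΛ
  let G : ({x // x ∈ T} → X.Pt) → (ι → X.Pt) := fun u i =>
    if h : i ∈ T then u ⟨i, h⟩ else s i
  have hG : Reg (X := X.pow {x // x ∈ T}) (Y := X.pow ι) G := by
    intro L _ _ x hx i
    by_cases h : i ∈ T
    · have h1 := hx ⟨i, h⟩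
      have h2 : (fun P => G (x P) i) = fun P => x P ⟨i, h⟩ := by
        funext P
        simp only [G, h, dite_true]
      rw [h2]
      exact h1
    · have h2 : (fun P => G (x P) i) = fun _ : Place k L => s i := by
        funext P
        simp only [G, h, dite_false]
      rw [h2]
      exact hX L _
  have hΛ' : Kill (X.pow {x // x ∈ T}) (fun u => Λ1 (G u)) :=
    Kill.comp (X := X.pow {x // x ∈ T}) (Y := X.pow ι) hG hΛ1
  have h1 := hg {x // x ∈ T} (by rw [Fintype.card_coe, hT]) _ hΛ' (fun i => s i)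
  have h2 : ML (fun u => Λ1 (G u)) =
      (ML Λ).domDomRestrict (fun i => i ∈ T) (fun i => Z i) := by
    refine ML_ext fun x => ?_
    rw [ML_single, MultilinearMap.domDomRestrict_apply]
    change ML Λ (fun i => e' i (G x i)) = _
    congr 1
    funext i
    by_cases h : i ∈ T
    · simp only [e', G, h, dite_true, if_true]
    · simp only [e', G, h, dite_false, if_false]
  rw [h2] at h1
  rw [sum_PT, ← h1]
  refine Finset.sum_congr rfl fun σ _ => ?_
  rw [MultilinearMap.domDomRestrict_apply]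
  congr 1
  funext i
  by_cases h : i ∈ T
  · rw [if_pos h, dif_pos h, Equiv.Perm.ofSubtype_apply_of_mem σ h]
  · rw [if_neg h, dif_neg h]

section core

variable {Θ : Type} {ι : Type} [Fintype ι] [DecidableEq ι]

/-- the product of the cycles `e (κ s) (y s)`, `s ∈ J`, and `Z s`, `s ∉ J` -/
noncomputable def val (e : Θ → X.Pt → (X.Pt →₀ k)) (Λ : (ι → X.Pt) → k) (J : Finset ι)
    (Z : ι → X.Pt →₀ k) (κ : {s // s ∈ J} → Θ) (y : {s // s ∈ J} → X.Pt) : k :=
  ML Λ (fun s => if h : s ∈ J then e (κ ⟨s, h⟩) (y ⟨s, h⟩) else Z s)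

theorem val_kil (hX : X.Const) {e : Θ → X.Pt → (X.Pt →₀ k)} {d : Θ → ℕ}
    (hv : ∀ θ, VanX X (e θ) (d θ)) {Λ : (ι → X.Pt) → k} (hΛ : Kill (X.pow ι) Λ) (J : Finset ι)
    (Z : ι → X.Pt →₀ k) (lab : {s // s ∈ J} → Θ) (y : {s // s ∈ J} → X.Pt) :
    (fun u : Perm {s // s ∈ J} => val e Λ J Z (fun s => lab (u s)) (fun s => y (u s))) ∈
      kil k lab d := by
  classical
  rw [mem_kil]
  intro θ T hT hTc u
  have hT0 : T.Nonempty := by
    rw [← Finset.card_pos, hTc]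
    omega
  obtain ⟨t0, ht0⟩ := hT0
  let F0 : Perm {s // s ∈ J} → k := fun τ =>
    val e Λ J Z (fun s => lab ((u * τ) s)) (fun s => y ((u * τ) s))
  have h1 : ∑ τ ∈ PT T, val e Λ J Z (fun s => lab ((τ * u) s)) (fun s => y ((τ * u) s)) =
      ∑ τ ∈ PT T, F0 (u⁻¹ * τ * u⁻¹⁻¹) := by
    refine Finset.sum_congr rfl fun τ _ => ?_
    have h2 : u * (u⁻¹ * τ * u⁻¹⁻¹) = τ * u := by group
    change _ = val e Λ J Z (fun s => lab ((u * (u⁻¹ * τ * u⁻¹⁻¹)) s))
      (fun s => y ((u * (u⁻¹ * τ * u⁻¹⁻¹)) s))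
    rw [h2]
  rw [h1, sum_conj]
  set T' : Finset {s // s ∈ J} := T.map (u⁻¹ : Perm {s // s ∈ J}).toEmbedding with hT'
  have hmem : ∀ s : {s // s ∈ J}, s ∈ T' ↔ u s ∈ T := by
    intro s
    rw [hT', Finset.mem_map]
    constructor
    · rintro ⟨x, hx, rfl⟩
      change u (u⁻¹ x) ∈ T
      rwa [perm_inv]
    · intro h
      refine ⟨u s, h, ?_⟩
      change u⁻¹ (u s) = s
      exact Equiv.symm_apply_apply u s
  let s' : ι → X.Pt := fun s => if h : s ∈ J then y (u ⟨s, h⟩) else y t0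
  let Z' : ι → X.Pt →₀ k := fun s =>
    if h : s ∈ J then e (lab (u ⟨s, h⟩)) (y (u ⟨s, h⟩)) else Z s
  let T'' : Finset ι := T'.map (Function.Embedding.subtype _)
  have hmem2 : ∀ s (h : s ∈ J), s ∈ T'' ↔ (⟨s, h⟩ : {s // s ∈ J}) ∈ T' := by
    intro s h
    change s ∈ T'.map (Function.Embedding.subtype _) ↔ _
    rw [Finset.mem_map]
    constructor
    · rintro ⟨x, hx, hxs⟩
      have h3 : x = ⟨s, h⟩ := Subtype.ext hxs
      rwa [← h3]
    · intro h3
      exact ⟨⟨s, h⟩, h3, rfl⟩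
  have hmem3 : ∀ s, s ∈ T'' → s ∈ J := by
    intro s hs
    change s ∈ T'.map (Function.Embedding.subtype _) at hs
    rw [Finset.mem_map] at hs
    obtain ⟨x, -, rfl⟩ := hs
    exact x.2
  have hcard : T''.card = d θ + 1 := by
    change (T'.map (Function.Embedding.subtype _)).card = _
    rw [Finset.card_map, hT', Finset.card_map, hTc]
  have h3 := van_multiX hX (hv θ) T'' hcard s' Λ hΛ Z'
  rw [← h3, ← sum_PT_sub J T' (fun τ : Perm ι =>
    ML Λ (fun i => if i ∈ T'' then e θ (s' (τ i)) else Z' i))]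
  refine Finset.sum_congr rfl fun τ hτ => ?_
  rw [mem_PT] at hτ
  change ML Λ _ = ML Λ _
  congr 1
  funext s
  by_cases h : s ∈ J
  · rw [dif_pos h]
    change e (lab (u (τ ⟨s, h⟩))) (y (u (τ ⟨s, h⟩))) = _
    by_cases hs : s ∈ T''
    · rw [if_pos hs, Equiv.Perm.ofSubtype_apply_of_mem τ h]
      have h4 : τ ⟨s, h⟩ ∈ T' := by
        by_contra h5
        have h6 := τ.injective (hτ _ h5)
        rw [h6] at h5
        exact h5 ((hmem2 s h).1 hs)
      have h5 : lab (u (τ ⟨s, h⟩)) = θ := hT _ ((hmem _).1 h4)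
      rw [h5]
      congr 1
      have h6 : s' (τ ⟨s, h⟩ : {s // s ∈ J}) = y (u (τ ⟨s, h⟩)) := by
        change (if h' : ((τ ⟨s, h⟩ : {s // s ∈ J}) : ι) ∈ J then _ else _) = _
        rw [dif_pos (τ ⟨s, h⟩).2]
      exact h6.symm
    · rw [if_neg hs, hτ ⟨s, h⟩ (fun h4 => hs ((hmem2 s h).2 h4))]
      change _ = if h' : s ∈ J then _ else _
      rw [dif_pos h]
  · rw [dif_neg h, if_neg (fun hs => h (hmem3 s hs))]
    change _ = if h' : s ∈ J then _ else _
    rw [dif_neg h]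

/-- The vanishing theorem for functionals with symmetries. -/
theorem core_van (hX : X.Const) {e : Θ → X.Pt → (X.Pt →₀ k)} {d : Θ → ℕ}
    (hv : ∀ θ, VanX X (e θ) (d θ)) {Λ : (ι → X.Pt) → k} (hΛ : Kill (X.pow ι) Λ) (J : Finset ι)
    (Z : ι → X.Pt →₀ k) (Q : ({s // s ∈ J} → Θ) → Prop)
    (hQ : ∀ κ y, ¬ Q κ → val e Λ J Z κ y = 0)
    (H : ∀ (κ : {s // s ∈ J} → Θ) (c : {s // s ∈ J} → ℕ), Q κ → (∀ i, c i < d (κ i)) →
      ∃ (σ : Perm {s // s ∈ J}) (ε : ({s // s ∈ J} → Θ) → k),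
      (∀ κ' y', val e Λ J Z (fun s => κ' (σ s)) (fun s => y' (σ s)) =
        ε κ' * val e Λ J Z κ' y') ∧ (∀ i, κ (σ i) = κ i) ∧
      (∀ i, c (σ i) = c i) ∧ ε κ ≠ ((Perm.sign σ : ℤ) : k))
    (κ : {s // s ∈ J} → Θ) (y : {s // s ∈ J} → X.Pt) : val e Λ J Z κ y = 0 := by
  let f : Perm {s // s ∈ J} → k := fun u => val e Λ J Z (fun s => κ (u s)) (fun s => y (u s))
  have hf : f ∈ kil k κ d := val_kil hX hv hΛ J Z κ y
  have hQf : ∀ u : Perm {s // s ∈ J}, ¬ Q (fun i => κ (u i)) → f u = 0 :=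
    fun u hu => hQ (fun i => κ (u i)) (fun i => y (u i)) hu
  have hH : ∀ (κ' : {s // s ∈ J} → Θ) (c : {s // s ∈ J} → ℕ), Q κ' → (∀ i, c i < d (κ' i)) →
      ∃ (σ : Perm {s // s ∈ J}) (ε : ({s // s ∈ J} → Θ) → k),
      (∀ u : Perm {s // s ∈ J}, f (u * σ) = ε (fun i => κ (u i)) * f u) ∧
      (∀ i, κ' (σ i) = κ' i) ∧ (∀ i, c (σ i) = c i) ∧ ε κ' ≠ ((Perm.sign σ : ℤ) : k) := by
    intro κ' c hκ' hc
    obtain ⟨σ, ε, h2, h3, h4, h5⟩ := H κ' c hκ' hc
    exact ⟨σ, ε, fun u => h2 (fun i => κ (u i)) (fun i => y (u i)), h3, h4, h5⟩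
  have h1 : f = 0 := lemE κ d f hf Q hQf hH
  exact congrFun h1 1

end core

end Pool.Agent.J4.H71.BQ
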