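import Pool.Agent.J4.H71.BQ.B
import Pool.Agent.J4.H71.IR.D

/-!
# The disjoint union of the curves
-/

set_option autoImplicit false

open FF IntermediateField Equiv Pool.Agent.J4.H17.ZC Pool.Agent.J4.H18.CV Pool.Agent.J4.H71.IR
  Pool.Agent.J4.H27.BB Pool.Agent.J4.H82.PV

namespace Pool.Agent.J4.H71.BQ

section gen

variable {k : Type} [Field k] [CharZero k] {X : Var k}

theorem kill_of_gen {Λ : X.Pt → k} (h : ∀ (L : Type) [Field L] [Algebra k L] [IsFF k L]
    (x : Place k L → X.Pt), X.IsMor L x → ∀ f : L, f ≠ 0 →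
      ev (fun P => Λ (x P)) (divisor k f) = 0) : Kill X Λ := by
  intro z hz
  have h1 : RatEq X ≤ (ev Λ).ker := by
    unfold RatEq
    rw [AddSubgroup.closure_le]
    rintro z ⟨L, _, _, _, x, f, hx, hf, rfl⟩
    change ev Λ (Finsupp.mapDomain x (divisor k f)) = 0
    rw [ev_map]
    exact h L x hx f hf
  exact h1 hz

theorem lin_single_map {A B : Type} (q : A → B) (w : A →₀ k) :
    Finsupp.linearCombination k (fun x => Finsupp.single (q x) (1 : k)) w =
      Finsupp.mapDomain q w := by
  induction w using Finsupp.induction_linear with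
  | zero => rw [map_zero, Finsupp.mapDomain_zero]
  | add u v hu hv => rw [map_add, hu, hv, Finsupp.mapDomain_add]
  | single a n => rw [Finsupp.linearCombination_single, Finsupp.mapDomain_single,
      Finsupp.smul_single, smul_eq_mul, mul_one]

theorem ML_map {T A B : Type} [Fintype T] [DecidableEq T] (q : T → A → B) (Λ : (T → B) → k)
    (w : T → A →₀ k) : ML (fun x : T → A => Λ fun i => q i (x i)) w =
      ML Λ fun i => Finsupp.mapDomain (q i) (w i) := by
  have h1 := ML_comp Λ (fun i x => Finsupp.single (q i x) (1 : k)) w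
  simp only [lin_single_map, ML_single] at h1
  exact h1.symm

theorem ev_zero {A : Type} (z : A →₀ ℤ) : ev (fun _ : A => (0 : k)) z = 0 := by
  rw [ev_apply]
  simp

end gen

section uni

variable {k : Type} [Field k] {A : Type} {K : A → Type} [∀ a, Field (K a)] [∀ a, Algebra k (K a)]

variable (k K) in
/-- The disjoint union of the curves. -/
abbrev uni : Var k where
  Pt := Σ a, Place k (K a)
  IsMor L _ _ x := ∃ (a : A) (x' : Place k L → Place k (K a)), (curve k (K a)).IsMor L x' ∧
    ∀ P, x P = ⟨a, x' P⟩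

/-- the identification of the points of the curves with equal indices -/
def castPl {a b : A} (h : a = b) (P : Place k (K a)) : Place k (K b) := by
  subst h
  exact P

theorem mk_cast {a : A} (x : Σ a, Place k (K a)) (h : x.1 = a) : x = ⟨a, castPl h x.2⟩ := by
  subst h
  rfl

variable {Θ : Type} (p : Θ → A) (e : ∀ θ, Place k (K (p θ)) → (Place k (K (p θ)) →₀ k))

open scoped Classical in
/-- the operator on the disjoint union given by an operator on one component -/
noncomputable def opU (θ : Θ) (x : Σ a, Place k (K a)) : (Σ a, Place k (K a)) →₀ k :=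
  if h : x.1 = p θ then Finsupp.mapDomain (Sigma.mk (p θ)) (e θ (castPl h x.2)) else 0

theorem opU_same (θ : Θ) (P : Place k (K (p θ))) :
    opU p e θ ⟨p θ, P⟩ = Finsupp.mapDomain (Sigma.mk (p θ)) (e θ P) :=
  dif_pos rfl

theorem opU_ne (θ : Θ) {x : Σ a, Place k (K a)} (h : x.1 ≠ p θ) : opU p e θ x = 0 :=
  dif_neg h

theorem opU_map (θ : Θ) (x : Σ a, Place k (K a)) :
    ∃ v, opU p e θ x = Finsupp.mapDomain (Sigma.mk (p θ)) v := by
  by_cases h : x.1 = p θ
  · exact ⟨_, dif_pos h⟩
  · exact ⟨0, by rw [opU_ne p e θ h, Finsupp.mapDomain_zero]⟩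

variable {ι : Type} (q : ι → A)

open scoped Classical in
/-- the extension by zero of a function on the product of the curves to the power of the disjoint
union -/
noncomputable def extZ (Λ : (∀ s, Place k (K (q s))) → k) (x : ι → Σ a, Place k (K a)) : k :=
  if h : ∀ s, (x s).1 = q s then Λ (fun s => castPl (h s) (x s).2) else 0

theorem extZ_inc (Λ : (∀ s, Place k (K (q s))) → k) (y : ∀ s, Place k (K (q s))) :
    extZ q Λ (fun s => ⟨q s, y s⟩) = Λ y :=
  dif_pos fun _ => rfl

theorem extZ_ne (Λ : (∀ s, Place k (K (q s))) → k) {x : ι → Σ a, Place k (K a)} {s : ι}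
    (h : (x s).1 ≠ q s) : extZ q Λ x = 0 :=
  dif_neg fun hx => h (hx s)

variable [CharZero k]

variable (k K) in
theorem uni_const : (uni k K).Const := fun L _ _ Q =>
  ⟨Q.1, fun _ => Q.2, curve_const (K Q.1) L Q.2, fun _ => rfl⟩

omit [CharZero k] in
theorem mk_reg (a : A) : Reg (X := curve k (K a)) (Y := uni k K)
    (fun P : Place k (K a) => (⟨a, P⟩ : Σ a, Place k (K a))) :=
  fun _ _ _ x hx => ⟨a, x, hx, fun _ => rfl⟩

/-- The vanishing theorem for the operator on the disjoint union. -/
theorem vanX_opU {θ : Θ} {d : ℕ} (h : VanK k (e θ) d) : VanX (uni k K) (opU p e θ) d := by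
  classical
  intro T _ _ hT Λ hΛ s
  by_cases hs : ∀ t, (s t).1 = p θ
  · have h1 : ∀ t, s t = ⟨p θ, castPl (hs t) (s t).2⟩ := fun t => mk_cast (s t) (hs t)
    have hΛ' : Kill ((curve k (K (p θ))).pow T) (fun x => Λ fun t => Sigma.mk (p θ) (x t)) :=
      Kill.comp (X := (curve k (K (p θ))).pow T) (Y := (uni k K).pow T)
        (F := fun x t => Sigma.mk (p θ) (x t))
        (fun L _ _ x hx t => mk_reg (k := k) (K := K) (p θ) L _ (hx t)) hΛ
    have h2 := h T hT _ hΛ' (fun t => castPl (hs t) (s t).2)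
    rw [← h2]
    refine Finset.sum_congr rfl fun σ _ => ?_
    rw [ML_map (fun _ => Sigma.mk (p θ)) Λ]
    congr 1
    funext t
    exact dif_pos (hs (σ t))
  · push Not at hs
    obtain ⟨t, ht⟩ := hs
    refine Finset.sum_eq_zero fun σ _ => ?_
    exact MultilinearMap.map_coord_zero _ (σ.symm t) (by
      rw [Equiv.apply_symm_apply, opU_ne p e θ ht])

/-- The extension by zero kills the cycles rationally equivalent to zero. -/
theorem extZ_kill {Λ : (∀ s, Place k (K (q s))) → k}
    (hΛ : Kill (varPi fun s => curve k (K (q s))) Λ) : Kill ((uni k K).pow ι) (extZ q Λ) := by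
  refine kill_of_gen ?_
  intro L _ _ _ x hx f hf
  choose a x' hx' hxP using hx
  by_cases h : ∀ s, a s = q s
  · have h1 : ∀ s, ∃ x'' : Place k L → Place k (K (q s)), (curve k (K (q s))).IsMor L x'' ∧
        ∀ P, x P s = ⟨q s, x'' P⟩ := by
      intro s
      rw [← h s]
      exact ⟨x' s, hx' s, hxP s⟩
    choose y hy hyP using h1
    have h2 : (fun P => extZ q Λ (x P)) = fun P => Λ (fun s => y s P) := by
      funext P
      have h3 : x P = fun s => ⟨q s, y s P⟩ := funext fun s => hyP s P
      rw [h3, extZ_inc]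
    rw [h2]
    have h4 := hΛ _ (mem_ratEq (X := varPi fun s => curve k (K (q s))) (L := L)
      (x := fun P s => y s P) (fun s => hy s) hf)
    rwa [ev_map] at h4
  · push Not at h
    obtain ⟨s, hs⟩ := h
    have h2 : (fun P => extZ q Λ (x P)) = fun _ => 0 := by
      funext P
      refine extZ_ne q Λ (s := s) ?_
      have h3 : x P s = ⟨a s, x' s P⟩ := hxP s P
      rw [h3]
      exact hs
    rw [h2, ev_zero]

variable [Fintype ι] [DecidableEq ι]

omit [CharZero k] in
/-- A cycle on the wrong component. -/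
theorem ML_wrong (Λ : (∀ s, Place k (K (q s))) → k) (w : ι → (Σ a, Place k (K a)) →₀ k) {s0 : ι}
    {b : A} (hb : b ≠ q s0) {v : Place k (K b) →₀ k}
    (hw : w s0 = Finsupp.mapDomain (Sigma.mk b) v) : ML (extZ q Λ) w = 0 := by
  classical
  rw [ML_apply, Finsupp.linearCombination_apply]
  unfold Finsupp.sum
  refine Finset.sum_eq_zero fun x hx => ?_
  rw [Finsupp.mem_support_iff, extK_apply] at hx
  have h1 : w s0 (x s0) ≠ 0 := fun h => hx (Finset.prod_eq_zero (Finset.mem_univ s0) h)
  have h2 : (x s0).1 = b := by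
    by_contra hne
    apply h1
    rw [hw]
    refine Finsupp.mapDomain_of_notMem_range _ _ ?_
    rintro ⟨P, hP⟩
    exact hne (by rw [← hP])
  change extK w x • extZ q Λ x = 0
  rw [extZ_ne q Λ (s := s0) (by rw [h2]; exact hb), smul_zero]

end uni

end Pool.Agent.J4.H71.BQ
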