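import Pool.Agent.J4.H71.BQ.C

/-!
# The action of a finite group through wreath products
-/

set_option autoImplicit false

open FF IntermediateField Equiv Pool.Agent.J4.H17.ZC Pool.Agent.J4.H18.CV Pool.Agent.J4.H71.IR
  Pool.Agent.J4.H27.BB Pool.Agent.J4.H82.PV

namespace Pool.Agent.J4.H71.BQ

section act

variable {k : Type} [Field k] {A : Type} {K : A → Type} [∀ a, Field (K a)] [∀ a, Algebra k (K a)]
  {G : A → Type} [∀ a, Group (G a)] (β : ∀ a, G a →* (K a ≃ₐ[k] K a))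

/-- the action on the disjoint union -/
noncomputable def actU (γ : ∀ a, G a) (x : Σ a, Place k (K a)) : Σ a, Place k (K a) :=
  ⟨x.1, act (β x.1 (γ x.1)) x.2⟩

open scoped Classical in
/-- the operator for a character: on the trivial part a constant is subtracted -/
noncomputable def eop [∀ a, Fintype (G a)] (o : ∀ a, Place k (K a))
    (θ : Σ a, (G a →* kˣ)) (P : Place k (K θ.1)) : Place k (K θ.1) →₀ k :=
  exu (β θ.1) θ.2 P - if θ.2 = 1 then exu (β θ.1) 1 (o θ.1) else 0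

variable [∀ a, Fintype (G a)]

theorem exu_twist (a : A) (χ : G a →* kˣ) (P : Place k (K a)) :
    exu (β a) χ P = twist (β a) χ (Finsupp.single P 1) := by
  rw [twist_eq, Finsupp.linearCombination_single, one_smul]

theorem map_exu (a : A) (χ : G a →* kˣ) (P : Place k (K a)) (g : G a) :
    Finsupp.mapDomain (act (β a g)) (exu (β a) χ P) = ((χ g : kˣ) : k) • exu (β a) χ P := by
  rw [exu_twist, map_twist]

theorem map_eop (o : ∀ a, Place k (K a)) (θ : Σ a, (G a →* kˣ)) (P : Place k (K θ.1))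
    (g : G θ.1) : Finsupp.mapDomain (act (β θ.1 g)) (eop β o θ P) =
      ((θ.2 g : kˣ) : k) • eop β o θ P := by
  classical
  have h0 : Finsupp.mapDomain (act (β θ.1 g)) (eop β o θ P) =
      Finsupp.lmapDomain k k (act (β θ.1 g)) (eop β o θ P) := rfl
  rw [h0]
  unfold eop
  rw [map_sub, smul_sub]
  congr 1
  · exact map_exu β θ.1 θ.2 P g
  · split_ifs with h
    · rw [h, MonoidHom.one_apply, Units.val_one, one_smul]
      have h1 := map_exu β θ.1 1 (o θ.1) g
      rw [MonoidHom.one_apply, Units.val_one, one_smul] at h1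
      exact h1
    · rw [map_zero, smul_zero]

/-- the action on the cycles in the image of the operators -/
theorem map_opU (o : ∀ a, Place k (K a)) (θ : Σ a, (G a →* kˣ)) (γ : ∀ a, G a)
    (x : Σ a, Place k (K a)) :
    Finsupp.mapDomain (actU β γ) (opU (fun θ : Σ a, (G a →* kˣ) => θ.1) (eop β o) θ x) =
      ((θ.2 (γ θ.1) : kˣ) : k) • opU (fun θ : Σ a, (G a →* kˣ) => θ.1) (eop β o) θ x := by
  by_cases h : x.1 = θ.1
  · have h1 : opU (fun θ : Σ a, (G a →* kˣ) => θ.1) (eop β o) θ x =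
        Finsupp.mapDomain (Sigma.mk θ.1) (eop β o θ (castPl h x.2)) := dif_pos h
    rw [h1, ← Finsupp.mapDomain_comp]
    have h2 : (actU β γ) ∘ (Sigma.mk θ.1) = (Sigma.mk θ.1) ∘ (act (β θ.1 (γ θ.1))) := rfl
    rw [h2, Finsupp.mapDomain_comp, map_eop, Finsupp.mapDomain_smul]
  · rw [opU_ne _ _ _ h, Finsupp.mapDomain_zero, smul_zero]

/-- the constant cycle on a component -/
noncomputable def cst (o : ∀ a, Place k (K a)) (a : A) : (Σ a, Place k (K a)) →₀ k :=
  Finsupp.mapDomain (Sigma.mk a) (exu (β a) 1 (o a))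

theorem map_cst (o : ∀ a, Place k (K a)) (a : A) (γ : ∀ a, G a) :
    Finsupp.mapDomain (actU β γ) (cst β o a) = cst β o a := by
  unfold cst
  rw [← Finsupp.mapDomain_comp]
  have h2 : (actU β γ) ∘ (Sigma.mk a) = (Sigma.mk a) ∘ (act (β a (γ a))) := rfl
  rw [h2, Finsupp.mapDomain_comp, map_exu, MonoidHom.one_apply, Units.val_one, one_smul]

end act

section wreath

variable {A : Type} {n : A → ℕ} {G : A → Type} {H : Type} [Group H]

/-- the permutation of all the positions -/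
def PP (π : H →* ∀ a, Perm (Fin (n a))) (h : H) : Perm (Σ a, Fin (n a)) :=
  Equiv.sigmaCongrRight (π h)

theorem PP_apply (π : H →* ∀ a, Perm (Fin (n a))) (h : H) (s : Σ a, Fin (n a)) :
    PP π h s = ⟨s.1, π h s.1 s.2⟩ := rfl

theorem PP_inv_apply (π : H →* ∀ a, Perm (Fin (n a))) (h : H) (s : Σ a, Fin (n a)) :
    (PP π h)⁻¹ s = ⟨s.1, (π h s.1)⁻¹ s.2⟩ := rfl

theorem PP_inv_fst (π : H →* ∀ a, Perm (Fin (n a))) (h : H) (s : Σ a, Fin (n a)) :
    ((PP π h)⁻¹ s).1 = s.1 := rfl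

variable {k : Type} [Field k] {K : A → Type} [∀ a, Field (K a)] [∀ a, Algebra k (K a)]
  [∀ a, Group (G a)]

/-- the action on the product of the powers of the curves -/
noncomputable def hact (β : ∀ a, G a →* (K a ≃ₐ[k] K a)) (π : H →* ∀ a, Perm (Fin (n a)))
    (g : H → ∀ a, Fin (n a) → G a) (h : H) (y : ∀ s : Σ a, Fin (n a), Place k (K s.1)) :
    ∀ s : Σ a, Fin (n a), Place k (K s.1) := fun s =>
  act (β s.1 (g h s.1 s.2)) (y ⟨s.1, (π h s.1)⁻¹ s.2⟩)

theorem hact_mul (β : ∀ a, G a →* (K a ≃ₐ[k] K a)) (π : H →* ∀ a, Perm (Fin (n a)))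
    (g : H → ∀ a, Fin (n a) → G a)
    (hg : ∀ h h' a i, g (h * h') a i = g h a i * g h' a ((π h a)⁻¹ i)) (h h' : H)
    (y : ∀ s : Σ a, Fin (n a), Place k (K s.1)) :
    hact β π g (h * h') y = hact β π g h (hact β π g h' y) := by
  funext s
  unfold hact
  rw [hg, map_mul, act_mul, map_mul]
  rfl

theorem hact_one (β : ∀ a, G a →* (K a ≃ₐ[k] K a)) (π : H →* ∀ a, Perm (Fin (n a)))
    (g : H → ∀ a, Fin (n a) → G a)
    (hg : ∀ h h' a i, g (h * h') a i = g h a i * g h' a ((π h a)⁻¹ i))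
    (y : ∀ s : Σ a, Fin (n a), Place k (K s.1)) : hact β π g 1 y = y := by
  have h1 : ∀ a i, g 1 a i = 1 := by
    intro a i
    have h2 := hg 1 1 a i
    rw [mul_one, map_one] at h2
    change g 1 a i = g 1 a i * g 1 a i at h2
    exact (mul_eq_left.1 h2.symm)
  funext s
  unfold hact
  rw [h1, map_one, act_one, map_one]
  rfl

theorem hact_reg [CharZero k] (β : ∀ a, G a →* (K a ≃ₐ[k] K a)) (π : H →* ∀ a, Perm (Fin (n a)))
    (g : H → ∀ a, Fin (n a) → G a) (h : H) :
    Reg (X := varPi fun s : Σ a, Fin (n a) => curve k (K s.1))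
      (Y := varPi fun s : Σ a, Fin (n a) => curve k (K s.1)) (hact β π g h) := by
  intro L _ _ x hx s
  exact act_reg (β s.1 (g h s.1 s.2)) L _ (hx ⟨s.1, (π h s.1)⁻¹ s.2⟩)

end wreath

end Pool.Agent.J4.H71.BQ
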