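import Pool.Agent.J4.H71.BQ.D

/-!
# The vanishing for positions with nontrivial labels
-/

set_option autoImplicit false

open FF IntermediateField Equiv Pool.Agent.J4.H17.ZC Pool.Agent.J4.H18.CV Pool.Agent.J4.H71.IR
  Pool.Agent.J4.H27.BB Pool.Agent.J4.H82.PV

namespace Pool.Agent.J4.H71.BQ

variable {k : Type} [Field k] [CharZero k] {A : Type} [Fintype A] [DecidableEq A] {K : A → Type}
  [∀ a, Field (K a)] [∀ a, Algebra k (K a)]
  {G : A → Type} [∀ a, Group (G a)] [∀ a, Fintype (G a)] {β : ∀ a, G a →* (K a ≃ₐ[k] K a)}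
  {n : A → ℕ} {H : Type} [Group H] {π : H →* ∀ a, Perm (Fin (n a))}
  {g : H → ∀ a, Fin (n a) → G a} {lam : H →* ℤˣ} {ν : ∀ a, (G a →* kˣ) → ℕ}

variable (k) in
/-- There are no invariant forms belonging to the set of positions. -/
def NF (ν : ∀ a, (G a →* kˣ) → ℕ) (π : H →* ∀ a, Perm (Fin (n a)))
    (g : H → ∀ a, Fin (n a) → G a) (lam : H →* ℤˣ) (J : Finset (Σ a, Fin (n a))) : Prop :=
  ∀ (κ : ∀ s : Σ a, Fin (n a), G s.1 →* kˣ)
    (c : (Σ a, Fin (n a)) → ℕ), (∀ s ∈ J, c s < ν s.1 (κ s)) →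
    ∃ (h : H) (hJ : ∀ s, PP π h s ∈ J ↔ s ∈ J),
      (∀ s ∈ J, κ ⟨s.1, π h s.1 s.2⟩ = κ s ∧ c ⟨s.1, π h s.1 s.2⟩ = c s) ∧
      ((lam h : ℤ) : k) * ((Perm.sign ((PP π h).subtypePerm hJ) : ℤ) : k) *
        ∏ s ∈ J, ((κ s (g h s.1 s.2) : kˣ) : k) ≠ 1

omit [CharZero k] [Fintype A] [∀ a, Fintype (G a)] in
/-- invariance of the extension by zero, pointwise -/
theorem extZ_inv {Λ : (∀ s : Σ a, Fin (n a), Place k (K s.1)) → k} {c : k} {h : H}
    (hinv : ∀ y, Λ y = c * Λ (hact β π g h y)) (x : (Σ a, Fin (n a)) → Σ a, Place k (K a)) :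
    extZ (fun s : Σ a, Fin (n a) => s.1) Λ x = c * extZ (fun s : Σ a, Fin (n a) => s.1) Λ
      (fun s => actU β (Pi.mulSingle s.1 (g h s.1 s.2)) (x ((PP π h)⁻¹ s))) := by
  by_cases hx : ∀ s, (x s).1 = s.1
  · obtain ⟨y, rfl⟩ : ∃ y : ∀ s : Σ a, Fin (n a), Place k (K s.1), x = fun s => ⟨s.1, y s⟩ :=
      ⟨fun s => castPl (hx s) (x s).2, funext fun s => mk_cast (x s) (hx s)⟩
    rw [extZ_inc, hinv]
    congr 1
    have h1 : (fun s : Σ a, Fin (n a) => actU β (Pi.mulSingle s.1 (g h s.1 s.2))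
        (⟨((PP π h)⁻¹ s).1, y ((PP π h)⁻¹ s)⟩ : Σ a, Place k (K a))) =
        fun s => ⟨s.1, hact β π g h y s⟩ := by
      funext s
      change (⟨s.1, act (β s.1 (Pi.mulSingle s.1 (g h s.1 s.2) s.1))
        (y ⟨s.1, (π h s.1)⁻¹ s.2⟩)⟩ : Σ a, Place k (K a)) = _
      rw [Pi.mulSingle_eq_same]
      rfl
    rw [h1, extZ_inc]
  · push Not at hx
    obtain ⟨s, hs⟩ := hx
    rw [extZ_ne _ Λ hs, extZ_ne _ Λ (s := PP π h s), mul_zero]
    change (x ((PP π h)⁻¹ (PP π h s))).1 ≠ s.1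
    have h2 : (PP π h)⁻¹ (PP π h s) = s := Equiv.symm_apply_apply _ _
    rw [h2]
    exact hs

omit [CharZero k] [∀ a, Fintype (G a)] in
/-- invariance of the multilinear extension -/
theorem ML_inv {Λ : (∀ s : Σ a, Fin (n a), Place k (K s.1)) → k} {c : k} {h : H}
    (hinv : ∀ y, Λ y = c * Λ (hact β π g h y))
    (w : (Σ a, Fin (n a)) → (Σ a, Place k (K a)) →₀ k) :
    ML (extZ (fun s : Σ a, Fin (n a) => s.1) Λ) w =
      c * ML (extZ (fun s : Σ a, Fin (n a) => s.1) Λ) (fun s =>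
        Finsupp.mapDomain (actU β (Pi.mulSingle s.1 (g h s.1 s.2))) (w ((PP π h)⁻¹ s))) := by
  let M : MultilinearMap k (fun _ : Σ a, Fin (n a) => (Σ a, Place k (K a)) →₀ k) k :=
    c • (((ML (extZ (fun s : Σ a, Fin (n a) => s.1) Λ)).compLinearMap (fun s =>
      Finsupp.lmapDomain k k (actU β (Pi.mulSingle s.1 (g h s.1 s.2))))).domDomCongr (PP π h)⁻¹)
  have hM : ∀ w, M w = c * ML (extZ (fun s : Σ a, Fin (n a) => s.1) Λ) (fun s =>
        Finsupp.mapDomain (actU β (Pi.mulSingle s.1 (g h s.1 s.2))) (w ((PP π h)⁻¹ s))) := by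
    intro w
    rfl
  rw [← hM]
  have h1 : ML (extZ (fun s : Σ a, Fin (n a) => s.1) Λ) = M := by
    refine ML_ext fun x => ?_
    rw [hM, ML_single]
    simp only [Finsupp.mapDomain_single]
    rw [ML_single]
    exact extZ_inv hinv x
  rw [h1]

/-- The vanishing if there are no forms for the set of the positions with nontrivial labels. -/
theorem van_J (o : ∀ a, Place k (K a)) (hν : ∀ a χ, VanK k (eop β o ⟨a, χ⟩) (ν a χ))
    {Λ : (∀ s : Σ a, Fin (n a), Place k (K s.1)) → k}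
    (hΛ : Kill (varPi fun s : Σ a, Fin (n a) => curve k (K s.1)) Λ)
    (hinv : ∀ h y, Λ y = ((lam h : ℤ) : k) * Λ (hact β π g h y))
    (J : Finset (Σ a, Fin (n a))) (hN : NF k ν π g lam J)
    (κ : {s // s ∈ J} → Σ a, (G a →* kˣ)) (y : {s // s ∈ J} → Σ a, Place k (K a)) :
    val (X := uni k K) (opU (fun θ : Σ a, (G a →* kˣ) => θ.1) (eop β o))
      (extZ (fun s : Σ a, Fin (n a) => s.1) Λ) J (fun s => cst β o s.1) κ y = 0 := by
  classical
  refine core_van (X := uni k K) (uni_const k K) (d := fun θ => ν θ.1 θ.2)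
    (fun θ => vanX_opU (fun θ : Σ a, (G a →* kˣ) => θ.1) (eop β o) (hν θ.1 θ.2))
    (extZ_kill _ hΛ) J (fun s => cst β o s.1) (fun κ => ∀ s : {s // s ∈ J}, (κ s).1 = s.1.1)
    ?_ ?_ κ y
  · -- wrong components
    intro κ y hκ
    push Not at hκ
    obtain ⟨s, hs⟩ := hκ
    obtain ⟨v, hv⟩ := opU_map (fun θ : Σ a, (G a →* kˣ) => θ.1) (eop β o) (κ s) (y s)
    refine ML_wrong _ Λ _ (s0 := s.1) (b := (κ s).1) hs (v := v) ?_
    rw [dif_pos s.2]
    exact hv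
  · intro κ c hκ hc
    obtain ⟨κ0, rfl⟩ : ∃ κ0 : ∀ s : {s // s ∈ J}, G s.1.1 →* kˣ, κ = fun s => ⟨s.1.1, κ0 s⟩ := by
      have h1 : ∀ s : {s // s ∈ J}, ∃ χ : G s.1.1 →* kˣ, κ s = ⟨s.1.1, χ⟩ := by
        intro s
        have h2 : ∀ (θ : Σ a, (G a →* kˣ)) (a : A), θ.1 = a → ∃ χ : G a →* kˣ, θ = ⟨a, χ⟩ := by
          rintro θ _ rfl
          exact ⟨θ.2, rfl⟩
        exact h2 _ _ (hκ s)
      choose κ0 hκ0 using h1
      exact ⟨κ0, funext hκ0⟩
    let κt : ∀ s : Σ a, Fin (n a), G s.1 →* kˣ := fun s => if h : s ∈ J then κ0 ⟨s, h⟩ else 1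
    let ct : (Σ a, Fin (n a)) → ℕ := fun s => if h : s ∈ J then c ⟨s, h⟩ else 0
    have hκt : ∀ s (h : s ∈ J), κt s = κ0 ⟨s, h⟩ := fun s h => dif_pos h
    have hct : ∀ s (h : s ∈ J), ct s = c ⟨s, h⟩ := fun s h => dif_pos h
    obtain ⟨h, hJ, h1, h2⟩ := hN κt ct (by
      intro s hs
      rw [hκt s hs, hct s hs]
      exact hc ⟨s, hs⟩)
    let σ : Perm {s // s ∈ J} := ((PP π h).subtypePerm hJ)⁻¹
    have hσ : ∀ s : {s // s ∈ J}, (σ s : Σ a, Fin (n a)) = (PP π h)⁻¹ s.1 := fun s => rfl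
    have hJ' : ∀ s, (PP π h)⁻¹ s ∈ J ↔ s ∈ J := by
      intro s
      have h3 := hJ ((PP π h)⁻¹ s)
      have h4 : PP π h ((PP π h)⁻¹ s) = s := Equiv.apply_symm_apply _ _
      rw [h4] at h3
      exact h3.symm
    let C : ({s // s ∈ J} → Σ a, (G a →* kˣ)) → (Σ a, Fin (n a)) → k := fun κ' s =>
      if hs : s ∈ J then (((κ' (σ ⟨s, hs⟩)).2
        ((Pi.mulSingle s.1 (g h s.1 s.2) : ∀ a, G a) (κ' (σ ⟨s, hs⟩)).1) : kˣ) : k) else 1
    have hC0 : ∀ κ' , ∏ s, C κ' s ≠ 0 := by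
      intro κ'
      rw [Finset.prod_ne_zero_iff]
      intro s _
      by_cases hs : s ∈ J
      · change (if hs : s ∈ J then _ else _) ≠ _
        rw [dif_pos hs]
        exact Units.ne_zero _
      · change (if hs : s ∈ J then _ else _) ≠ _
        rw [dif_neg hs]
        exact one_ne_zero
    have hlam0 : ((lam h : ℤ) : k) ≠ 0 := by
      rcases Int.units_eq_one_or (lam h) with h3 | h3
      · rw [h3]; simp
      · rw [h3]; simp
    have hlab : ∀ i : {s // s ∈ J}, (⟨(σ i).1.1, κ0 (σ i)⟩ : Σ a, (G a →* kˣ)) =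
        ⟨i.1.1, κ0 i⟩ := by
      intro i
      have h3 : (κt ⟨(σ i).1.1, π h (σ i).1.1 (σ i).1.2⟩) = κt (σ i).1 := (h1 _ (σ i).2).1
      let KT : (Σ a, Fin (n a)) → Σ a, (G a →* kˣ) := fun s => ⟨s.1, κt s⟩
      have h4 : KT (PP π h (σ i).1) = KT (σ i).1 := congrArg (Sigma.mk (σ i).1.1) h3
      have h5 : PP π h (σ i).1 = i.1 := Equiv.apply_symm_apply (PP π h) i.1
      rw [h5] at h4
      have h6 : ∀ j : {s // s ∈ J}, KT j.1 = ⟨j.1.1, κ0 j⟩ := by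
        intro j
        change (⟨j.1.1, κt j.1⟩ : Σ a, (G a →* kˣ)) = _
        rw [hκt j.1 j.2]
      rw [h6, h6] at h4
      exact h4.symm
    refine ⟨σ, fun κ' => (((lam h : ℤ) : k) * ∏ s, C κ' s)⁻¹, ?_, ?_, ?_, ?_⟩
    · intro κ' y'
      have h3 : val (X := uni k K) (opU (fun θ : Σ a, (G a →* kˣ) => θ.1) (eop β o))
          (extZ (fun s : Σ a, Fin (n a) => s.1) Λ) J (fun s => cst β o s.1) κ' y' =
          ((lam h : ℤ) : k) * ((∏ s, C κ' s) *
            val (X := uni k K) (opU (fun θ : Σ a, (G a →* kˣ) => θ.1) (eop β o))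
              (extZ (fun s : Σ a, Fin (n a) => s.1) Λ) J (fun s => cst β o s.1)
              (fun s => κ' (σ s)) (fun s => y' (σ s))) := by
        unfold val
        rw [ML_inv (hinv h)]
        congr 1
        rw [← smul_eq_mul (∏ s, C κ' s), ← MultilinearMap.map_smul_univ]
        congr 1
        funext s
        by_cases hs : s ∈ J
        · have hs' := (hJ' s).2 hs
          rw [dif_pos hs', dif_pos hs]
          have h4 : C κ' s = (((κ' (σ ⟨s, hs⟩)).2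
            ((Pi.mulSingle s.1 (g h s.1 s.2) : ∀ a, G a) (κ' (σ ⟨s, hs⟩)).1) : kˣ) : k) :=
            dif_pos hs
          rw [h4]
          exact map_opU β o (κ' (σ ⟨s, hs⟩)) _ (y' (σ ⟨s, hs⟩))
        · have hs' : (PP π h)⁻¹ s ∉ J := fun h' => hs ((hJ' s).1 h')
          rw [dif_neg hs', dif_neg hs]
          have h4 : C κ' s = 1 := dif_neg hs
          rw [h4, one_smul]
          exact map_cst β o s.1 _
      rw [h3, ← mul_assoc ((lam h : ℤ) : k)]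
      exact (inv_mul_cancel_left₀ (mul_ne_zero hlam0 (hC0 κ')) _).symm
    · exact hlab
    · intro i
      have h3 : ct ⟨(σ i).1.1, π h (σ i).1.1 (σ i).1.2⟩ = ct (σ i).1 := (h1 _ (σ i).2).2
      have h5 : (⟨(σ i).1.1, π h (σ i).1.1 (σ i).1.2⟩ : Σ a, Fin (n a)) = i.1 :=
        Equiv.apply_symm_apply (PP π h) i.1
      rw [h5, hct _ i.2, hct _ (σ i).2] at h3
      exact h3.symm
    · -- the sign
      have h3 : ∏ s, C (fun s : {s // s ∈ J} => (⟨s.1.1, κ0 s⟩ : Σ a, (G a →* kˣ))) s =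
          ∏ s ∈ J, ((κt s (g h s.1 s.2) : kˣ) : k) := by
        rw [← Finset.prod_subset (Finset.subset_univ J)]
        · refine Finset.prod_congr rfl fun s hs => ?_
          let F : (Σ a, (G a →* kˣ)) → k := fun θ =>
            ((θ.2 ((Pi.mulSingle s.1 (g h s.1 s.2) : ∀ a, G a) θ.1) : kˣ) : k)
          have h4 : C (fun s : {s // s ∈ J} => (⟨s.1.1, κ0 s⟩ : Σ a, (G a →* kˣ))) s =
              F ⟨(σ ⟨s, hs⟩).1.1, κ0 (σ ⟨s, hs⟩)⟩ := dif_pos hs
          rw [h4, hlab ⟨s, hs⟩, hκt s hs]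
          change ((κ0 ⟨s, hs⟩ ((Pi.mulSingle s.1 (g h s.1 s.2) : ∀ a, G a) s.1) : kˣ) : k) = _
          rw [Pi.mulSingle_eq_same]
        · intro s _ hs
          exact dif_neg hs
      intro hcon
      apply h2
      rw [← h3]
      have h4 : Perm.sign σ = Perm.sign ((PP π h).subtypePerm hJ) := Perm.sign_inv _
      rw [h4] at hcon
      rw [← hcon]
      have h5 := mul_inv_cancel₀ (mul_ne_zero hlam0
        (hC0 (fun s : {s // s ∈ J} => (⟨s.1.1, κ0 s⟩ : Σ a, (G a →* kˣ)))))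
      rw [mul_right_comm]
      exact h5

end Pool.Agent.J4.H71.BQ
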