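import Pool.Agent.J4.H71.BQ.E

/-!
# Expansion of the functional
-/

set_option autoImplicit false

open FF IntermediateField Equiv Pool.Agent.J4.H17.ZC Pool.Agent.J4.H18.CV Pool.Agent.J4.H71.IR
  Pool.Agent.J4.H27.BB Pool.Agent.J4.H82.PV

namespace Pool.Agent.J4.H71.BQ

section regE

variable {k : Type} [Field k] [CharZero k] {X Y Z : Var k}

theorem RegE_map {e : X.Pt → (Y.Pt →₀ k)} (h : RegE X Y e) {F : Y.Pt → Z.Pt}
    (hF : Reg (X := Y) (Y := Z) F) : RegE X Z (fun x => Finsupp.mapDomain F (e x)) := by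
  obtain ⟨J, i1, c, θ, h1, h2⟩ := h
  refine ⟨J, i1, c, fun j x => F (θ j x), fun j L _ _ x hx => hF L _ (h1 j L x hx), fun x => ?_⟩
  change Finsupp.mapDomain F (e x) = ∑ j, c j • Finsupp.single (F (θ j x)) (1 : k)
  rw [h2]
  have h3 : Finsupp.mapDomain F (∑ j, c j • Finsupp.single (θ j x) (1 : k)) =
      Finsupp.lmapDomain k k F (∑ j, c j • Finsupp.single (θ j x) (1 : k)) := rfl
  rw [h3, map_sum]
  refine Finset.sum_congr rfl fun j _ => ?_
  rw [map_smul, Finsupp.lmapDomain_apply, Finsupp.mapDomain_single]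

theorem RegE_kill_pi {ι : Type} [Fintype ι] [DecidableEq ι] {X : ι → Var k}
    {e : ∀ i, (X i).Pt → (Y.Pt →₀ k)} (he : ∀ i, RegE (X i) Y (e i)) {Λ : (ι → Y.Pt) → k}
    (hΛ : Kill (Y.pow ι) Λ) : Kill (varPi X) (fun x => ML Λ fun i => e i (x i)) := by
  classical
  choose J hJ c θ hθ hc using he
  have h1 : (fun x : ∀ i, (X i).Pt => ML Λ fun i => e i (x i)) = fun x =>
      ∑ r : ∀ i, J i, (∏ i, c i (r i)) * Λ (fun i => θ i (r i) (x i)) := by
    funext x
    have h2 : (fun i => e i (x i)) = fun i => ∑ j, c i j • Finsupp.single (θ i j (x i)) (1 : k) :=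
      funext fun i => hc i (x i)
    rw [h2, MultilinearMap.map_sum]
    refine Finset.sum_congr rfl fun r _ => ?_
    rw [MultilinearMap.map_smul_univ, ML_single, smul_eq_mul]
  rw [h1]
  refine Kill.sum _ _ _ fun r _ => ?_
  exact Kill.comp (X := varPi X) (Y := Y.pow ι) (F := fun x i => θ i (r i) (x i))
    (fun L _ _ x hx i => hθ i (r i) L _ (hx i)) hΛ

end regE

section exp

variable {k : Type} [Field k] [CharZero k] {A : Type} [Fintype A] [DecidableEq A] {K : A → Type}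
  [∀ a, Field (K a)] [∀ a, Algebra k (K a)]
  {G : A → Type} [∀ a, CommGroup (G a)] [∀ a, Fintype (G a)] {β : ∀ a, G a →* (K a ≃ₐ[k] K a)}
  {n : A → ℕ}

variable (β) in
/-- the parts of the zero-cycle given by a point -/
noncomputable def part (o : ∀ a, Place k (K a)) (a : A) (t : Option (G a →* kˣ))
    (P : Place k (K a)) : (Σ a, Place k (K a)) →₀ k :=
  match t with
  | none => cst β o a
  | some χ => opU (fun θ : Σ a, (G a →* kˣ) => θ.1) (eop β o) ⟨a, χ⟩ ⟨a, P⟩

theorem sum_part [IsAlgClosed k] [∀ a, IsFF k (K a)] [∀ a, Fintype (G a →* kˣ)]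
    (o : ∀ a, Place k (K a)) (a : A) (P : Place k (K a)) :
    ∑ t : Option (G a →* kˣ), part β o a t P =
      ((Fintype.card (G a →* kˣ) : ℕ) : k) • Finsupp.single ⟨a, P⟩ 1 := by
  classical
  rw [Fintype.sum_option]
  change cst β o a + ∑ χ : G a →* kˣ,
    opU (fun θ : Σ a, (G a →* kˣ) => θ.1) (eop β o) ⟨a, χ⟩ ⟨a, P⟩ = _
  have h1 : ∀ χ : G a →* kˣ, opU (fun θ : Σ a, (G a →* kˣ) => θ.1) (eop β o) ⟨a, χ⟩ ⟨a, P⟩ =
      Finsupp.lmapDomain k k (Sigma.mk a) (twist (β a) χ (Finsupp.single P 1)) -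
        Finsupp.lmapDomain k k (Sigma.mk a) (if χ = 1 then exu (β a) 1 (o a) else 0) := by
    intro χ
    have h2 := opU_same (fun θ : Σ a, (G a →* kˣ) => θ.1) (eop β o) ⟨a, χ⟩ P
    rw [h2, ← map_sub, ← exu_twist]
    rfl
  rw [Finset.sum_congr rfl fun χ _ => h1 χ, Finset.sum_sub_distrib, ← map_sum, ← map_sum,
    sum_twist, Finset.sum_ite_eq' Finset.univ (1 : G a →* kˣ), if_pos (Finset.mem_univ _),
    map_smul, Finsupp.lmapDomain_apply, Finsupp.mapDomain_single]
  have h3 : Finsupp.lmapDomain k k (Sigma.mk a) (exu (β a) 1 (o a)) = cst β o a := rfl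
  rw [h3]
  abel

/-- one term of the expansion -/
noncomputable def term (β : ∀ a, G a →* (K a ≃ₐ[k] K a)) (o : ∀ a, Place k (K a))
    (Λ : (∀ s : Σ a, Fin (n a), Place k (K s.1)) → k)
    (r : ∀ s : Σ a, Fin (n a), Option (G s.1 →* kˣ))
    (y : ∀ s : Σ a, Fin (n a), Place k (K s.1)) : k :=
  ML (extZ (fun s : Σ a, Fin (n a) => s.1) Λ) (fun s => part β o s.1 (r s) (y s))

theorem expand [IsAlgClosed k] [∀ a, IsFF k (K a)] [∀ a, Fintype (G a →* kˣ)]
    (o : ∀ a, Place k (K a)) (Λ : (∀ s : Σ a, Fin (n a), Place k (K s.1)) → k)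
    (y : ∀ s : Σ a, Fin (n a), Place k (K s.1)) :
    (∏ s : Σ a, Fin (n a), ((Fintype.card (G s.1 →* kˣ) : ℕ) : k)) * Λ y =
      ∑ r : ∀ s : Σ a, Fin (n a), Option (G s.1 →* kˣ), term β o Λ r y := by
  classical
  unfold term
  rw [← MultilinearMap.map_sum (ML (extZ (fun s : Σ a, Fin (n a) => s.1) Λ))
    (fun s t => part β o s.1 t (y s))]
  have h1 : (fun s : Σ a, Fin (n a) => ∑ t : Option (G s.1 →* kˣ), part β o s.1 t (y s)) =
      fun s : Σ a, Fin (n a) => ((Fintype.card (G s.1 →* kˣ) : ℕ) : k) •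
        Finsupp.single (⟨s.1, y s⟩ : Σ a, Place k (K a)) (1 : k) :=
    funext fun s => sum_part o s.1 (y s)
  rw [h1, MultilinearMap.map_smul_univ, ML_single, extZ_inc, smul_eq_mul]

/-- The terms kill the cycles rationally equivalent to zero. -/
theorem term_kill {o : ∀ a, Place k (K a)} {Λ : (∀ s : Σ a, Fin (n a), Place k (K s.1)) → k}
    (hΛ : Kill (varPi fun s : Σ a, Fin (n a) => curve k (K s.1)) Λ)
    (r : ∀ s : Σ a, Fin (n a), Option (G s.1 →* kˣ)) :
    Kill (varPi fun s : Σ a, Fin (n a) => curve k (K s.1)) (term β o Λ r) := by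
  have he : ∀ s : Σ a, Fin (n a), RegE (curve k (K s.1)) (uni k K)
      (fun P => part β o s.1 (r s) P) := by
    intro s
    cases r s with
    | none => exact RegE.const (uni_const k K) _
    | some χ =>
      have h2 : (fun P => part β o s.1 (some χ) P) = fun P =>
          Finsupp.mapDomain (fun P : Place k (K s.1) => (⟨s.1, P⟩ : Σ a, Place k (K a)))
            (eop β o ⟨s.1, χ⟩ P) := by
        funext P
        exact opU_same (fun θ : Σ a, (G a →* kˣ) => θ.1) (eop β o) ⟨s.1, χ⟩ P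
      rw [h2]
      refine RegE_map (Y := curve k (K s.1)) ?_ (mk_reg (k := k) (K := K) s.1)
      unfold eop
      exact RegE.sub (exu_regE (β s.1) χ) (RegE.const (fun L _ _ Q => curve_const _ L Q) _)
  exact RegE_kill_pi (X := fun s : Σ a, Fin (n a) => curve k (K s.1)) he
    (extZ_kill (fun s : Σ a, Fin (n a) => s.1) hΛ)

/-- The terms only depend on the coordinates with nontrivial labels. -/
theorem term_proj {o : ∀ a, Place k (K a)} {Λ : (∀ s : Σ a, Fin (n a), Place k (K s.1)) → k}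
    (hΛ : Kill (varPi fun s : Σ a, Fin (n a) => curve k (K s.1)) Λ)
    {r : ∀ s : Σ a, Fin (n a), Option (G s.1 →* kˣ)} {J : Finset (Σ a, Fin (n a))}
    (hr : ∀ s, s ∉ J → r s = none) :
    ∃ Φ : (∀ s : {s // s ∈ J}, Place k (K s.1.1)) → k,
      Kill (varPi fun s : {s // s ∈ J} => curve k (K s.1.1)) Φ ∧
      ∀ y, term β o Λ r y = Φ (fun s => y s.1) := by
  classical
  let F : (∀ s : {s // s ∈ J}, Place k (K s.1.1)) → ∀ s : Σ a, Fin (n a), Place k (K s.1) :=
    fun v s => if h : s ∈ J then v ⟨s, h⟩ else o s.1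
  have hF : Reg (X := varPi fun s : {s // s ∈ J} => curve k (K s.1.1))
      (Y := varPi fun s : Σ a, Fin (n a) => curve k (K s.1)) F := by
    intro L _ _ x hx s
    by_cases h : s ∈ J
    · have h1 : (fun P => F (x P) s) = fun P => x P ⟨s, h⟩ := by
        funext P
        exact dif_pos h
      rw [h1]
      exact hx ⟨s, h⟩
    · have h1 : (fun P => F (x P) s) = fun _ => o s.1 := by
        funext P
        exact dif_neg h
      rw [h1]
      exact curve_const (K s.1) L _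
  have h1 : Kill (varPi fun s : {s // s ∈ J} => curve k (K s.1.1))
      (fun v => term β o Λ r (F v)) := Kill.comp hF (term_kill hΛ r)
  refine ⟨fun v => term β o Λ r (F v), h1, fun y => ?_⟩
  unfold term
  congr 1
  funext s
  by_cases h : s ∈ J
  · have h2 : F (fun s => y s.1) s = y s := dif_pos h
    rw [h2]
  · rw [hr s h]
    rfl

/-- The terms for which there are no forms. -/
theorem term_zero {H : Type} [Group H] {π : H →* ∀ a, Perm (Fin (n a))}
    {g : H → ∀ a, Fin (n a) → G a} {lam : H →* ℤˣ} {ν : ∀ a, (G a →* kˣ) → ℕ}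
    {o : ∀ a, Place k (K a)} (hν : ∀ a χ, VanK k (eop β o ⟨a, χ⟩) (ν a χ))
    {Λ : (∀ s : Σ a, Fin (n a), Place k (K s.1)) → k}
    (hΛ : Kill (varPi fun s : Σ a, Fin (n a) => curve k (K s.1)) Λ)
    (hinv : ∀ h y, Λ y = ((lam h : ℤ) : k) * Λ (hact β π g h y))
    {r : ∀ s : Σ a, Fin (n a), Option (G s.1 →* kˣ)} {J : Finset (Σ a, Fin (n a))}
    (hr : ∀ s, s ∈ J ↔ r s ≠ none) (hN : NF k ν π g lam J)
    (y : ∀ s : Σ a, Fin (n a), Place k (K s.1)) : term β o Λ r y = 0 := by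
  classical
  have h1 : ∀ s : {s // s ∈ J}, ∃ χ : G s.1.1 →* kˣ, r s.1 = some χ := by
    intro s
    exact Option.ne_none_iff_exists'.1 ((hr s.1).1 s.2)
  choose κ hκ using h1
  rw [← van_J o hν hΛ hinv J hN (fun s => ⟨s.1.1, κ s⟩) (fun s => ⟨s.1.1, y s.1⟩)]
  unfold term val
  congr 1
  funext s
  by_cases hs : s ∈ J
  · rw [dif_pos hs, hκ ⟨s, hs⟩]
    rfl
  · rw [dif_neg hs]
    have h2 : r s = none := by
      by_contra h3
      exact hs ((hr s).2 h3)
    rw [h2]
    rfl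

/-- The vanishing of an invariant functional. -/
theorem inv_van [IsAlgClosed k] [∀ a, IsFF k (K a)] [∀ a, Fintype (G a →* kˣ)]
    {H : Type} [Group H] {π : H →* ∀ a, Perm (Fin (n a))}
    {g : H → ∀ a, Fin (n a) → G a} {lam : H →* ℤˣ} {ν : ∀ a, (G a →* kˣ) → ℕ}
    {o : ∀ a, Place k (K a)} (hν : ∀ a χ, VanK k (eop β o ⟨a, χ⟩) (ν a χ))
    {Λ : (∀ s : Σ a, Fin (n a), Place k (K s.1)) → k}
    (hΛ : Kill (varPi fun s : Σ a, Fin (n a) => curve k (K s.1)) Λ)
    (hinv : ∀ h y, Λ y = ((lam h : ℤ) : k) * Λ (hact β π g h y))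
    {z : (∀ s : Σ a, Fin (n a), Place k (K s.1)) →₀ ℤ}
    (hz : ∀ J : Finset (Σ a, Fin (n a)), NF k ν π g lam J ∨ ∃ N : ℕ, 0 < N ∧
      N • Finsupp.mapDomain (fun (y : ∀ s : Σ a, Fin (n a), Place k (K s.1))
        (s : {s // s ∈ J}) => y s.1) z ∈
        RatEq (varPi fun s : {s // s ∈ J} => curve k (K s.1.1))) : ev Λ z = 0 := by
  classical
  have hc : (∏ s : Σ a, Fin (n a), ((Fintype.card (G s.1 →* kˣ) : ℕ) : k)) ≠ 0 := by
    rw [Finset.prod_ne_zero_iff]
    intro s _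
    rw [Nat.cast_ne_zero]
    exact Fintype.card_ne_zero
  have h1 : (∏ s : Σ a, Fin (n a), ((Fintype.card (G s.1 →* kˣ) : ℕ) : k)) * ev Λ z = 0 := by
    rw [← ev_mul]
    have h2 : (fun y => (∏ s : Σ a, Fin (n a), ((Fintype.card (G s.1 →* kˣ) : ℕ) : k)) * Λ y) =
        fun y => ∑ r : ∀ s : Σ a, Fin (n a), Option (G s.1 →* kˣ), 1 * term β o Λ r y := by
      funext y
      rw [expand o Λ y]
      exact Finset.sum_congr rfl fun r _ => (one_mul _).symm
    rw [h2, ev_sum]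
    refine Finset.sum_eq_zero fun r _ => ?_
    rw [one_mul]
    have hJ : ∀ s, s ∈ (Finset.univ.filter fun s => r s ≠ none) ↔ r s ≠ none := by
      intro s
      rw [Finset.mem_filter]
      exact ⟨fun h => h.2, fun h => ⟨Finset.mem_univ _, h⟩⟩
    rcases hz (Finset.univ.filter fun s => r s ≠ none) with h3 | ⟨N, hN0, hN1⟩
    · have h5 : (term β o Λ r) = fun _ => 0 :=
        funext fun y => term_zero hν hΛ hinv hJ h3 y
      rw [h5, ev_zero]
    · obtain ⟨Φ, hΦ, hy⟩ := term_proj (β := β) (o := o) hΛ (r := r)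
        (J := Finset.univ.filter fun s => r s ≠ none) (by
          intro s hs
          by_contra h7
          exact hs ((hJ s).2 h7))
      have h5 : (term β o Λ r) = fun y => Φ (fun s => y s.1) := funext hy
      rw [h5, ← ev_map (fun (y : ∀ s : Σ a, Fin (n a), Place k (K s.1))
        (s : {s // s ∈ Finset.univ.filter fun s => r s ≠ none}) => y s.1) Φ z]
      have h6 := hΦ _ hN1
      rw [map_nsmul, nsmul_eq_mul] at h6
      refine (mul_eq_zero.1 h6).resolve_left ?_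
      exact Nat.cast_ne_zero.2 (by omega)
  exact (mul_eq_zero.1 h1).resolve_left hc

end exp

end Pool.Agent.J4.H71.BQ
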