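import Pool.Agent.J4.H71.BQ.F
import Pool.Agent.J4.H64.BC.Van
import Pool.Agent.J4.H82.PV.Q

/-!
# The bounds for characters and the main theorem
-/

set_option autoImplicit false

open FF IntermediateField Equiv Pool.Agent.J4.H17.ZC Pool.Agent.J4.H18.CV Pool.Agent.J4.H71.IR
  Pool.Agent.J4.H27.BB Pool.Agent.J4.H82.PV

namespace Pool.Agent.J4.H71.BQ

section van

variable {k : Type} [Field k] [CharZero k] {K : Type} [Field K] [Algebra k K]

omit [CharZero k] in
theorem toK_extG {T A : Type} [Fintype T] [DecidableEq T] (a : T → A →₀ ℤ) :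
    (toK (extG a) : (T → A) →₀ k) = extK fun i => toK (a i) := by
  ext x
  rw [toK_apply, extG_apply, extK_apply]
  push_cast
  exact Finset.prod_congr rfl fun i _ => (toK_apply _ _).symm

omit [CharZero k] in
theorem ML_toK {T A : Type} [Fintype T] [DecidableEq T] (Λ : (T → A) → k) (a : T → A →₀ ℤ) :
    ML Λ (fun i => toK (a i)) = ev Λ (extG a) := by
  rw [← lin_toK, toK_extG]
  rfl

theorem vanK_of_van {e : Place k K → (Place k K →₀ ℤ)} {d : ℕ} (h : Van k e d) :
    VanK k (fun P => toK (e P)) d := by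
  intro T _ _ hT Λ hΛ s
  rw [← Module.forall_dual_apply_eq_zero_iff ℚ]
  intro f
  let l : ((T → Place k K) →₀ ℤ) →+ ℚ := f.toAddMonoidHom.comp (ev Λ)
  have h1 := h T hT s l (fun r hr => by
    change f (ev Λ r) = 0
    rw [hΛ r hr, map_zero])
  unfold Th at h1
  rw [map_sum, ← h1]
  refine Finset.sum_congr rfl fun σ _ => ?_
  rw [ML_toK]
  rfl

theorem vanK_factor {e e' : Place k K → (Place k K →₀ k)} {d : ℕ} (h : VanK k e d)
    {D : Place k K → (Place k K →₀ k)}
    (hf : ∀ P, e' P = Finsupp.linearCombination k e (D P)) : VanK k e' d := by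
  intro T _ _ hT Λ hΛ s
  let M : MultilinearMap k (fun _ : T => Place k K →₀ k) k :=
    ∑ σ : Perm T, ((ML Λ).compLinearMap fun _ => Finsupp.linearCombination k e).domDomCongr σ
  have hM : ∀ w, M w = ∑ σ : Perm T, ML Λ (fun i => Finsupp.linearCombination k e (w (σ i))) := by
    intro w
    change (∑ σ : Perm T,
      ((ML Λ).compLinearMap fun _ => Finsupp.linearCombination k e).domDomCongr σ) w = _
    rw [MultilinearMap.sum_apply]
    rfl
  have h0 : M = 0 := by
    refine ML_ext fun x => ?_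
    rw [hM, MultilinearMap.zero_apply]
    simp only [Finsupp.linearCombination_single, one_smul]
    exact h T hT Λ hΛ x
  have h1 := hM fun i => D (s i)
  rw [h0, MultilinearMap.zero_apply] at h1
  rw [h1]
  exact Finset.sum_congr rfl fun σ _ => by simp only [hf]

end van

section bound

variable {k : Type} [Field k] [CharZero k] [IsAlgClosed k] {K : Type} [Field K] [Algebra k K]
  [IsFF k K] {H : Type} [Group H] [Fintype H]

omit [CharZero k] [IsAlgClosed k] [IsFF k K] in
theorem exu_tw (β : H →* (K ≃ₐ[k] K)) (χ : H →* kˣ) (P : Place k K) :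
    exu β χ P = twist β χ (Finsupp.single P 1) := by
  rw [twist_eq, Finsupp.linearCombination_single, one_smul]

/-- The genus of the quotient by the kernel. -/
theorem van_kerK (β : H →* (K ≃ₐ[k] K)) (χ : H →* kˣ) {ν : ℕ} (hχ : χ ≠ 1)
    (h2 : HasGenus k (fixedField (χ.ker.map β)) ν) : VanK k (exu β χ) ν := by
  classical
  obtain ⟨o, -⟩ := exists_place (k := k) (K := K)
  have h5 : Fintype χ.ker := Fintype.ofFinite _
  have hr2 : (β.comp χ.ker.subtype).range = χ.ker.map β := by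
    rw [MonoidHom.range_comp, Subgroup.range_subtype]
  rw [← hr2] at h2
  have hcard : ((Fintype.card χ.ker : ℕ) : k) ≠ 0 := by
    rw [Nat.cast_ne_zero]
    exact Fintype.card_ne_zero
  refine vanK_factor (van_trivK (β.comp χ.ker.subtype) h2 o)
    (D := fun P => ((Fintype.card χ.ker : ℕ) : k)⁻¹ • twist β χ (Finsupp.single P 1)) ?_
  intro P
  rw [lin_sub_const, map_smul, map_smul, dgK_twist β χ _ (Or.inl hχ), smul_zero, zero_smul,
    sub_zero, ← twist_eq]
  have h6 : twist (β.comp χ.ker.subtype) 1 (twist β χ (Finsupp.single P 1)) =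
      ((Fintype.card χ.ker : ℕ) : k) • twist β χ (Finsupp.single P 1) := by
    have h7 : ∀ x : χ.ker, (((((1 : χ.ker →* kˣ) x)⁻¹ : kˣ) : k) •
        Finsupp.mapDomain (act ((β.comp χ.ker.subtype) x)) (twist β χ (Finsupp.single P 1))) =
          twist β χ (Finsupp.single P 1) := by
      intro x
      have h8 : (β.comp χ.ker.subtype) x = β x := rfl
      rw [h8, map_twist]
      have h9 : χ x = 1 := x.2
      rw [h9, MonoidHom.one_apply, inv_one, Units.val_one, one_smul, one_smul]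
    change ∑ x : χ.ker, _ = _
    rw [Finset.sum_congr rfl fun x _ => h7 x, Finset.sum_const, Finset.card_univ,
      Nat.cast_smul_eq_nsmul]
  rw [h6, smul_smul, inv_mul_cancel₀ hcard, one_smul, exu_tw]

/-- Characters with the values `1` and `-1`. -/
theorem exists_sign {χ : H →* kˣ} (h : ∀ x, χ x = 1 ∨ χ x = -1) :
    ∃ χ' : H →* ℤˣ, (∀ x, ((χ x : kˣ) : k) = (((χ' x : ℤˣ) : ℤ) : k)) ∧
      (∀ x, χ' x = 1 ↔ χ x = 1) := by
  classical
  have hne : (-1 : kˣ) ≠ 1 := by
    intro h1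
    have h2 := congrArg (fun u : kˣ => (u : k)) h1
    simp only [Units.val_neg, Units.val_one] at h2
    exact absurd h2 (by norm_num)
  let f : H → ℤˣ := fun x => if χ x = 1 then 1 else -1
  have hf : ∀ x, ((χ x : kˣ) : k) = (((f x : ℤˣ) : ℤ) : k) := by
    intro x
    by_cases hx : χ x = 1
    · have h1 : f x = 1 := if_pos hx
      rw [hx, h1]
      simp
    · have h1 : f x = -1 := if_neg hx
      rw [(h x).resolve_left hx, h1]
      simp
  have hcast : ∀ a b : ℤˣ, (((a : ℤˣ) : ℤ) : k) = (((b : ℤˣ) : ℤ) : k) → a = b := by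
    intro a b hab
    have h1 : ((a : ℤˣ) : ℤ) = ((b : ℤˣ) : ℤ) := by exact_mod_cast hab
    exact Units.ext h1
  refine ⟨{ toFun := f, map_one' := ?_, map_mul' := ?_ }, hf, ?_⟩
  · exact if_pos (map_one χ)
  · intro x y
    apply hcast
    rw [Units.val_mul, Int.cast_mul, ← hf, ← hf, ← hf, map_mul, Units.val_mul]
  · intro x
    change f x = 1 ↔ _
    constructor
    · intro h1
      by_contra h2
      have h3 : f x = -1 := if_neg h2
      rw [h3] at h1
      exact absurd h1 (by decide)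
    · intro h1
      exact if_pos h1

/-- The vanishing for characters of order two. -/
theorem van_two (β : H →* (K ≃ₐ[k] K)) (χ : H →* kˣ) {g ν : ℕ} (hχ : χ ≠ 1)
    (hpm : ∀ x, χ x = 1 ∨ χ x = -1) (hF : HasGenus k (fixedField β.range) g)
    (hK : HasGenus k (fixedField (χ.ker.map β)) (g + ν))
    (h4 : ν = 0 ∨ (∃ (h : H) (P : Place k K), χ h ≠ 1 ∧ act (β h) P = P) ∨
      ∃ t : fixedField β.range, Transcendental k t ∧
        Module.finrank k⟮t⟯ (fixedField β.range) = 2) : VanK k (exu β χ) ν := by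
  classical
  obtain ⟨χ', h1, h2⟩ := exists_sign hpm
  have hker : χ'.ker = χ.ker := by
    ext x
    rw [MonoidHom.mem_ker, MonoidHom.mem_ker, h2]
  have h5 : Fintype χ'.ker := Fintype.ofFinite _
  have hr2 : (β.comp χ'.ker.subtype).range = χ.ker.map β := by
    rw [MonoidHom.range_comp, Subgroup.range_subtype, hker]
  have hχ' : χ' ≠ 1 := by
    rintro rfl
    apply hχ
    ext x
    have h3 := (h2 x).1 rfl
    rw [h3]
    rfl
  have hex : exu β χ = fun P => toK (ex β χ' P) := by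
    funext P
    unfold exu ex
    have h3 : (toK (∑ h : H, ((χ' h : ℤˣ) : ℤ) • Finsupp.single (act (β h) P) (1 : ℤ)) :
        Place k K →₀ k) = ∑ h : H, toK (((χ' h : ℤˣ) : ℤ) • Finsupp.single (act (β h) P) (1 : ℤ)) := by
      induction (Finset.univ : Finset H) using Finset.induction_on with
      | empty => rw [Finset.sum_empty, Finset.sum_empty, toK_zero]
      | insert a s ha ih => rw [Finset.sum_insert ha, Finset.sum_insert ha, toK_add, ih]
    rw [h3]
    refine Finset.sum_congr rfl fun h _ => ?_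
    rw [toK_smul, toK_single, ← h1, Int.cast_one]
    congr 1
    rcases hpm h with h6 | h6
    · rw [h6, inv_one]
    · rw [h6]
      simp
  rw [hex]
  rw [← hr2] at hK
  rcases h4 with h4 | ⟨h, P, hh, hP⟩ | ⟨t, ht, ht2⟩
  · subst h4
    exact vanK_of_van (van_char_zero β χ' hF hK hχ')
  · have h6 : χ' h = -1 := (Int.units_eq_one_or (χ' h)).resolve_left fun h7 => hh ((h2 h).1 h7)
    exact vanK_of_van (van_char β χ' hF hK h6 hP)
  · exact vanK_of_van (van_char_hyper β χ' hF hK hχ' ht ht2)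

/-- The vanishing for characters whose branch points are divided into blocks. -/
theorem van_blocksK (β : H →* (K ≃ₐ[k] K)) (χ : H →* kˣ) {g M B m ν : ℕ} {w : K}
    {f : fixedField β.range} (b : Fin M → Place k (fixedField β.range)) (q : Fin M → Fin B)
    (hg : HasGenus k (fixedField β.range) g) (hM : 0 < M) (hm : 0 < m)
    (hν : g + M ≤ ν + 1 + B) (hw0 : w ≠ 0) (hw : ∀ h, β h w = algebraMap k K (χ h) * w)
    (hwf : w ^ m = (f : K)) (hb : Function.Injective b) (hq : Function.Surjective q)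
    (hB : ∀ v : Place k (fixedField β.range), ¬ (m : ℤ) ∣ v.ord f ↔ ∃ j, b j = v)
    (hsum : ∀ i, (m : ℤ) ∣ ∑ j, if q j = i then (b j).ord f else 0) :
    VanK k (exu β χ) ν := by
  classical
  intro T _ _ hT Λ hΛ s
  have i1 : Nonempty (Fin M) := ⟨⟨0, hM⟩⟩
  refine Pool.Agent.J4.H64.BC.van_blocks β χ hg hw0 hw hm (δ := f) hwf b hb (fun v => ?_) q hq
    hsum ?_ Λ hΛ s
  · have h3 := hB v
    constructor
    · intro h4 j hj
      exact (h3.2 ⟨j, hj⟩) h4
    · intro h4
      by_contra h5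
      obtain ⟨j, hj⟩ := h3.1 h5
      exact h4 j hj
  · rw [Fintype.card_fin, Fintype.card_fin, hT]
    omega

end bound

section main

variable {k : Type} [Field k] [CharZero k] [IsAlgClosed k] {A : Type} [Fintype A] [DecidableEq A]
  {K : A → Type} [∀ a, Field (K a)] [∀ a, Algebra k (K a)] [∀ a, IsFF k (K a)]
  {G : A → Type} [∀ a, CommGroup (G a)] [∀ a, Fintype (G a)] {β : ∀ a, G a →* (K a ≃ₐ[k] K a)}
  {n : A → ℕ}

/-- Zero-cycles on the quotient. -/
theorem main {H : Type} [Group H] [Fintype H] {π : H →* ∀ a, Perm (Fin (n a))}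
    {g : H → ∀ a, Fin (n a) → G a}
    (hg : ∀ h h' a i, g (h * h') a i = g h a i * g h' a ((π h a)⁻¹ i))
    {lam : H →* ℤˣ} {ν : ∀ a, (G a →* kˣ) → ℕ}
    (h1 : ∀ a, HasGenus k (fixedField (β a).range) (ν a 1))
    (h2 : ∀ a (χ : G a →* kˣ), χ ≠ 1 → VanK k (exu (β a) χ) (ν a χ))
    (z : (∀ s : Σ a, Fin (n a), Place k (K s.1)) →₀ ℤ)
    (hz : ∀ J : Finset (Σ a, Fin (n a)), NF k ν π g lam J ∨ ∃ N : ℕ, 0 < N ∧
      N • Finsupp.mapDomain (fun (y : ∀ s : Σ a, Fin (n a), Place k (K s.1))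
        (s : {s // s ∈ J}) => y s.1)
        (∑ h : H, ((lam h : ℤˣ) : ℤ) • Finsupp.mapDomain (hact β π g h) z) ∈
        RatEq (varPi fun s : {s // s ∈ J} => curve k (K s.1.1))) :
    ∃ N : ℕ, 0 < N ∧ N • (∑ h : H, ((lam h : ℤˣ) : ℤ) • Finsupp.mapDomain (hact β π g h) z) ∈
      RatEq (varPi fun s : Σ a, Fin (n a) => curve k (K s.1)) := by
  classical
  set z' := ∑ h : H, ((lam h : ℤˣ) : ℤ) • Finsupp.mapDomain (hact β π g h) z with hz'
  have hfin : ∀ a, Finite (G a →* kˣ) := by
    intro a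
    have hexp : NeZero (Monoid.exponent (G a)) := ⟨Monoid.exponent_ne_zero_of_finite⟩
    have hexpk : NeZero ((Monoid.exponent (G a) : ℕ) : k) := ⟨by
      rw [Nat.cast_ne_zero]; exact hexp.out⟩
    obtain ⟨φ⟩ := CommGroup.monoidHom_mulEquiv_of_hasEnoughRootsOfUnity (G a) k
    exact Finite.of_equiv _ φ.symm.toEquiv
  have ifin : ∀ a, Fintype (G a →* kˣ) := fun a => Fintype.ofFinite _
  have ho : ∀ a, Nonempty (Place k (K a)) := fun a =>
    ⟨(exists_place (k := k) (K := K a)).choose⟩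
  let o : ∀ a, Place k (K a) := fun a => (ho a).some
  have hν : ∀ a χ, VanK k (eop β o ⟨a, χ⟩) (ν a χ) := by
    intro a χ
    by_cases hχ : χ = 1
    · subst hχ
      have h3 : eop β o ⟨a, 1⟩ = fun P => exu (β a) 1 P - exu (β a) 1 (o a) := by
        funext P
        unfold eop
        rw [if_pos rfl]
      rw [h3]
      exact van_trivK (β a) (h1 a) (o a)
    · have h3 : eop β o ⟨a, χ⟩ = exu (β a) χ := by
        funext P
        unfold eop
        rw [if_neg hχ, sub_zero]
      rw [h3]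
      exact h2 a χ hχ
  -- the sign
  have hlam : ∀ h : H, ((lam h : ℤ) : k) * ((lam h : ℤ) : k) = 1 := by
    intro h
    rw [← Int.cast_mul, ← Units.val_mul, Int.units_mul_self]
    simp
  have hsemi : ∀ h0 : H, Finsupp.mapDomain (hact β π g h0) z' = ((lam h0 : ℤˣ) : ℤ) • z' := by
    intro h0
    have h3 : Finsupp.mapDomain (hact β π g h0) z' =
        Finsupp.lmapDomain ℤ ℤ (hact β π g h0) z' := rfl
    rw [h3, hz', map_sum, Finset.smul_sum]
    refine Fintype.sum_equiv (Equiv.mulLeft h0) _ _ fun h => ?_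
    rw [map_smul, Finsupp.lmapDomain_apply, ← Finsupp.mapDomain_comp, smul_smul]
    change _ = (((lam h0 : ℤˣ) : ℤ) * ((lam (h0 * h) : ℤˣ) : ℤ)) •
      Finsupp.mapDomain (hact β π g (h0 * h)) z
    have h4 : hact β π g (h0 * h) = hact β π g h0 ∘ hact β π g h := by
      funext y
      exact hact_mul β π g hg h0 h y
    rw [h4, map_mul, Units.val_mul, ← mul_assoc, ← Units.val_mul, Int.units_mul_self,
      Units.val_one, one_mul]
  refine torsion_of_hom _ _ fun l hl => ?_
  let lk : ((∀ s : Σ a, Fin (n a), Place k (K s.1)) →₀ ℤ) →+ k :=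
    (Rat.castHom k).toAddMonoidHom.comp l
  let Λ0 : (∀ s : Σ a, Fin (n a), Place k (K s.1)) → k := fun y => lk (Finsupp.single y 1)
  have hev : ev Λ0 = lk := ev_hom lk
  have hΛ0 : Kill (varPi fun s : Σ a, Fin (n a) => curve k (K s.1)) Λ0 := by
    intro r hr
    rw [hev]
    change ((l r : ℚ) : k) = 0
    rw [hl r hr, Rat.cast_zero]
  let Λ1 : (∀ s : Σ a, Fin (n a), Place k (K s.1)) → k := fun y =>
    ∑ h : H, ((lam h : ℤ) : k) * Λ0 (hact β π g h y)
  have hΛ1 : Kill (varPi fun s : Σ a, Fin (n a) => curve k (K s.1)) Λ1 :=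
    Kill.sum _ _ _ fun h _ => Kill.comp (hact_reg β π g h) hΛ0
  have hinv : ∀ h y, Λ1 y = ((lam h : ℤ) : k) * Λ1 (hact β π g h y) := by
    intro h0 y
    change ∑ h : H, ((lam h : ℤ) : k) * Λ0 (hact β π g h y) = ((lam h0 : ℤ) : k) *
      ∑ h : H, ((lam h : ℤ) : k) * Λ0 (hact β π g h (hact β π g h0 y))
    rw [Finset.mul_sum]
    refine (Fintype.sum_equiv (Equiv.mulRight h0) _ _ fun h => ?_).symm
    change _ = ((lam (h * h0) : ℤ) : k) * Λ0 (hact β π g (h * h0) y)
    rw [hact_mul β π g hg, map_mul, Units.val_mul, Int.cast_mul]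
    ring
  have h3 : ev Λ1 z' = 0 := inv_van hν hΛ1 hinv hz
  have h4 : ev Λ1 z' = ((Fintype.card H : ℕ) : k) * ev Λ0 z' := by
    have h5 : ev Λ1 z' = ∑ h : H, ((lam h : ℤ) : k) * ev (fun y => Λ0 (hact β π g h y)) z' :=
      ev_sum _ _ _ _
    rw [h5]
    have h6 : ∀ h : H, ((lam h : ℤ) : k) * ev (fun y => Λ0 (hact β π g h y)) z' = ev Λ0 z' := by
      intro h
      rw [← ev_map, hsemi, map_zsmul, zsmul_eq_mul, ← mul_assoc, hlam, one_mul]
    rw [Finset.sum_congr rfl fun h _ => h6 h, Finset.sum_const, Finset.card_univ, nsmul_eq_mul]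
  rw [h4] at h3
  have h5 : ev Λ0 z' = 0 := (mul_eq_zero.1 h3).resolve_left (Nat.cast_ne_zero.2
    Fintype.card_ne_zero)
  rw [hev] at h5
  change ((l z' : ℚ) : k) = 0 at h5
  exact_mod_cast h5

end main

end Pool.Agent.J4.H71.BQ
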